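import Pool.Agent.TLK.Main

/-!
# LCK manifolds with a locally conformally product structure: the tube case

`M = (ℂ^p × (ℝ^m + i Ω)) / Γ`. If `M` is LCK with Kähler cover metric `|dz|² + g` (Weyl structure LCP), and `Ω` is convex
without lines or `g` has an automorphic potential `φ (Im w)` (`Ω` arbitrary), then `p = 1` and `M` is a finite unramified
cover of an Oeljeklaus-Toma manifold `X(K, U)` with `t = 1`.
-/

namespace Pool.Agent.Results.MP_590246_gt.TubeCase

theorem result (p m : ℕ) (hp : 0 < p) (hm : 0 < m) (Ω : Set (Fin m → ℝ)) (hΩ : IsOpen Ω)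
    (hcon : IsConnected Ω) (Γ : Subgroup (Equiv.Perm (TLK.Amb p m)))
    (g : (Fin m → ℂ) → Matrix (Fin m) (Fin m) ℂ) (h : TLK.IsLCKTube Ω Γ g)
    (hH : (Convex ℝ Ω ∧ TLK.NoLine Ω) ∨ TLK.AutPotential Ω Γ g) : TLK.Conclusion Ω Γ :=
  TLK.mainLCK p m hp hm Ω hΩ hcon Γ g h hH

end Pool.Agent.Results.MP_590246_gt.TubeCase
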